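import Pool.Agent.Run7.h176.NC.Class
import Pool.Agent.Run7.h176.NC.CuspCurve

/-!
# MP_a54f13_nt: the moments of order at most `3` of Hecke-Maass forms do not concentrate on geodesics

`HeckeForm f l` (file `Pool/Agent/Run7/h176/NC/Hecke.lean`) says that `f : ℍ → ℂ` is measurable, invariant
under `SL(2, ℤ)` and that, for every prime `p`,
`f (p z) + ∑_{0 ≤ b < p} f ((z + b) / p) = √p * l p * f z` for all `z`, that is, `f` is an eigenfunction of
all Hecke operators `T_p`. Every Hecke-Maass cusp form of the modular surface is one; the spectral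
parameter plays no role, and the statement is uniform in it.
`𝒟` is the standard fundamental domain, the integrals are with respect to the hyperbolic area.
-/

set_option autoImplicit false

open UpperHalfPlane MeasureTheory
open scoped MatrixGroups ENNReal Modular

namespace Pool.Agent.Results.MP_a54f13_nt.MomentsDoNotConcentrate

open Pool.Agent.Run7.h176.NC

/-- the geodesic `α |z|² + β Re z + γ = 0` joins two cusps: its coefficients are proportional to integers
with a square discriminant -/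
def JoinsCusps (α β γ : ℝ) : Prop :=
  ∃ (u v w : ℤ) (s : ℝ), α = s * u ∧ β = s * v ∧ γ = s * w ∧ IsSquare (v ^ 2 - 4 * u * w)

/-- Let `L` be a compact subset of the geodesic `α |z|² + β Re z + γ = 0` of the upper half plane; for
example `L` can be any point. For every `ε > 0` there is `δ > 0` such that, for all eigenfunctions `f` of
the Hecke operators and all exponents `1 ≤ q ≤ 3`, the `δ`-neighbourhood of `L` carries at most the part
`ε` of the integral of `|f| ^ q` over the modular surface. If the geodesic joins two cusps, we assume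
`|l p| ≤ C₀ p ^ (1 / 6)`. For the Hecke-Maass cusp forms this holds with `C₀ = 2`, by Kim and Sarnak. -/
theorem result (α β γ : ℝ) (h0 : ¬ (α = 0 ∧ β = 0 ∧ γ = 0)) (C₀ : ℝ) (hC₀ : 1 ≤ C₀)
    (L : Set ℍ) (hL : IsCompact L)
    (hLG : ∀ z ∈ L, α * Complex.normSq (z : ℂ) + β * z.re + γ = 0)
    (ε : ℝ) (hε : 0 < ε) :
    ∃ δ : ℝ, 0 < δ ∧ ∀ (f : ℍ → ℂ) (l : ℕ → ℂ), HeckeForm f l →
      (JoinsCusps α β γ → ∀ p : ℕ, p.Prime → ‖l p‖ ≤ C₀ * (p : ℝ) ^ (1 / 6 : ℝ)) →
      ∀ q : ℝ, 1 ≤ q → q ≤ 3 →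
      ∫⁻ z in Metric.thickening δ L, ‖f z‖ₑ ^ q ≤
        ENNReal.ofReal ε * ∫⁻ z in 𝒟, ‖f z‖ₑ ^ q := by
  by_cases hj : JoinsCusps α β γ
  · obtain ⟨u, v, w, s, e1, e2, e3, _⟩ := id hj
    obtain ⟨δ, hδ, h⟩ := geod_off h0 e1 e2 e3 hC₀ le_rfl hL hLG hε
    exact ⟨δ, hδ, fun f l H hl => h f l H (hl hj)⟩
  rcases L.eq_empty_or_nonempty with hem | ⟨z₀, hz₀⟩
  · refine ⟨1, one_pos, fun f l _ _ q _ _ => ?_⟩
    rw [hem]; simp
  have hΔ := disc_pos h0 (hLG z₀ hz₀)
  have hcusp : ∀ (u v w : ℤ) (s : ℝ), α = s * u → β = s * v → γ = s * w →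
      ¬ IsSquare (v ^ 2 - 4 * u * w) := fun u v w s e1 e2 e3 hsq =>
    hj ⟨u, v, w, s, e1, e2, e3, hsq⟩
  obtain ⟨q₀, hq₀, a, ha, hin⟩ := geod_class h0 hΔ hcusp
  have : NeZero q₀ := ⟨hq₀⟩
  obtain ⟨δ, hδ, h⟩ := curve_small (SG_scaling α β γ) q₀ a ha hin hL
    (fun A hA hS => (subsingleton_inter h0 hLG hA hS).finite) hε
  exact ⟨δ, hδ, fun f l H _ => h f l H⟩

end Pool.Agent.Results.MP_a54f13_nt.MomentsDoNotConcentrate
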