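import Pool.Agent.Results.MP_a28cf0_nt.TripleCorrelations
import Pool.Agent.Results.MP_a54f13_nt.TwoPointFunctions

/-!
# Three-point functions at all distances (MP_a54f13_nt)

The plane is `ℂ`, with the upper half plane `HH` and `dμ = dx dy / y²`. `dx f z`, `dy f z` are the
partial derivatives `fderiv ℝ f z 1`, `fderiv ℝ f z I`; `TF U φ` says that `φ : ℂ → ℝ` is smooth
with compact support contained in `U`. For `r > 0` and real `b` the map `z ↦ r z + b` is an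
isometry of the hyperbolic plane; these isometries act simply transitively.

Proof. The composition of `f` with isometries which stay in a compact set is again a quantum ergodic
sequence of eigenfunctions, with the same eigenvalues, and the triangle with three equal sides is
not degenerate: the theorem on triple correlations applies.
-/

set_option autoImplicit false
open MeasureTheory Filter Topology Complex
open scoped ContDiff

namespace Pool.Agent.Results.MP_a54f13_nt.ThreePointFunctions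

open Pool.Agent.W745.RW (TF dx dy)
open Pool.Agent.Results.MP_a54f13_nt

/-- the open upper half plane -/
def HH : Set ℂ := {z | 0 < z.im}

/-- the eigenvalue `1/4 + t²` -/
noncomputable def ev (t : ℝ) : ℝ := 1 / 4 + t ^ 2

/-- `f` is a smooth real solution of `-y² (∂x² + ∂y²) f = (1/4 + t²) f` on the upper half plane -/
def Eig (t : ℝ) (f : ℂ → ℝ) : Prop :=
  ContDiffOn ℝ ∞ f HH ∧ ∀ z ∈ HH, -(z.im ^ 2 * (dx (dx f) z + dy (dy f) z)) = ev t * f z

/-- the operator `f ↦ lam^{-1/2} y (∂x f - i ∂y f)` -/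
noncomputable def RO (lam : ℝ) (f : ℂ → ℂ) (z : ℂ) : ℂ :=
  ((z.im / √lam : ℝ) : ℂ) * (dx f z - I * dy f z)

/-- quantum unique ergodicity in microlocal form: `∫ φ f (RO^k f) dμ → ∫ φ dμ` for `k = 0`, and
`→ 0` for `k ≥ 1` -/
def QUE (t : ℕ → ℝ) (f : ℕ → ℂ → ℝ) : Prop :=
  ∀ φ, TF HH φ → ∀ k : ℕ, Tendsto (fun n => ∫ z, ((φ z / z.im ^ 2 : ℝ) : ℂ) *
    ((f n z : ℂ) * (RO (ev (t n)))^[k] (fun w => (f n w : ℂ)) z)) atTop
    (𝓝 (if k = 0 then ((∫ z, φ z / z.im ^ 2 : ℝ) : ℂ) else 0))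

/-- the isometry `z ↦ r z + b` -/
noncomputable def aff (r b : ℝ) (z : ℂ) : ℂ := r • z + (b : ℂ)

lemma aff_cont : Continuous fun p : (ℝ × ℝ) × ℂ => aff p.1.1 p.1.2 p.2 := by
  unfold aff
  exact ((continuous_fst.comp continuous_fst).smul continuous_snd).add
    (Complex.continuous_ofReal.comp (continuous_snd.comp continuous_fst))

/-- local `L¹` bounds of the products -/
lemma prod_bd {t : ℕ → ℝ} (ht : Tendsto t atTop atTop) {f : ℕ → ℂ → ℝ}
    (hf : ∀ n, Eig (t n) (f n)) (h : QUE t f) (k : ℕ) {K : Set ℂ} (hK : IsCompact K)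
    (hKH : K ⊆ HH) : ∃ C : ℝ, ∀ᶠ n in atTop,
      ∫ z in K, ‖(f n z : ℂ) * (RO (ev (t n)))^[k] (fun w => (f n w : ℂ)) z‖ ≤ C := by
  have D := Pool.Agent.Results.MP_a28cf0_nt.TripleCorrelations.data ht ht hf hf h
    (Pool.Agent.Results.MP_a28cf0_nt.TripleCorrelations.que_bd hf h)
  have H := D.sy
  have l := Pool.Agent.TH294.RS.LB.mul2 (H.bd 0).lb (H.bd (k : ℤ)).lb
  obtain ⟨C, hC⟩ := Pool.Agent.Y265.HY.l1b_of l K hK hKH
  refine ⟨C, hC.mono fun n hn => ?_⟩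
  refine le_trans (le_of_eq ?_) hn
  congr 1; funext z
  congr 2
  exact (Pool.Agent.Y265.HY.FW_eq (fun n => ev (t n)) f (Int.ofNat k) n z).symm

/-- isometries which converge preserve quantum ergodicity -/
lemma QUE_affn {t : ℕ → ℝ} (ht : Tendsto t atTop atTop) {f : ℕ → ℂ → ℝ}
    (hf : ∀ n, Eig (t n) (f n)) (h : QUE t f) {r b : ℕ → ℝ} {r0 b0 : ℝ} (hr : ∀ n, 0 < r n)
    (hr0 : 0 < r0) (lr : Tendsto r atTop (𝓝 r0)) (lb : Tendsto b atTop (𝓝 b0)) :
    QUE t (fun n z => f n (aff (r n) (b n) z)) := by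
  intro φ hφ k
  obtain ⟨F, hF⟩ : ∃ F : ℕ → ℂ → ℂ, ∀ n z, F n z =
    (f n z : ℂ) * (RO (ev (t n)))^[k] (fun w => (f n w : ℂ)) z := ⟨_, fun _ _ => rfl⟩
  -- the inverse parameters
  obtain ⟨r', hr'⟩ : ∃ r' : ℕ → ℝ, ∀ n, r' n = (r n)⁻¹ := ⟨_, fun _ => rfl⟩
  obtain ⟨b', hb'⟩ : ∃ b' : ℕ → ℝ, ∀ n, b' n = -((r n)⁻¹ * b n) := ⟨_, fun _ => rfl⟩
  have lr' : Tendsto r' atTop (𝓝 r0⁻¹) := (lr.inv₀ hr0.ne').congr fun n => (hr' n).symm
  have lb' : Tendsto b' atTop (𝓝 (-(r0⁻¹ * b0))) :=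
    (((lr.inv₀ hr0.ne').mul lb).neg).congr fun n => (hb' n).symm
  obtain ⟨ψ, hψ⟩ : ∃ ψ : ℂ → ℝ, ∀ z, ψ z = φ (aff r0⁻¹ (-(r0⁻¹ * b0)) z) := ⟨_, fun _ => rfl⟩
  have tψ : TF HH ψ := by
    have := TwoPointFunctions.TF_aff hφ (inv_pos.2 hr0) (-(r0⁻¹ * b0))
    have e : ψ = fun z => φ (TwoPointFunctions.aff r0⁻¹ (-(r0⁻¹ * b0)) z) := funext hψ
    rw [e]; exact this
  have h1 := h ψ tψ k
  have e2 : ((∫ z, ψ z / z.im ^ 2 : ℝ) : ℂ) = ((∫ z, φ z / z.im ^ 2 : ℝ) : ℂ) := by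
    have := TwoPointFunctions.int_inv (φ := φ) hr0 b0 (fun _ => 1)
    simp only [mul_one] at this
    rw [← integral_complex_ofReal, ← integral_complex_ofReal]
    simp only [hψ]
    exact this.symm
  rw [e2] at h1
  -- change of variables
  have e1 : ∀ n, ∫ z, ((φ z / z.im ^ 2 : ℝ) : ℂ) * ((f n (aff (r n) (b n) z) : ℂ) *
      (RO (ev (t n)))^[k] (fun w => (f n (aff (r n) (b n) w) : ℂ)) z) =
      ∫ z, ((φ (aff (r' n) (b' n) z) / z.im ^ 2 : ℝ) : ℂ) * F n z := by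
    intro n
    have k1 := TwoPointFunctions.int_inv (φ := φ) (hr n) (b n) (F n)
    rw [hr', hb']
    refine Eq.trans ?_ k1
    congr 1; funext z
    have := congrFun (TwoPointFunctions.RO_it (ev (t n)) (fun w => (f n w : ℂ)) (r n) (b n) k) z
    rw [hF]
    congr 2
  -- common support
  have hK0 : IsCompact (tsupport φ) := hφ.2.1
  obtain ⟨K, hKd⟩ : ∃ K, K = (fun p : (ℝ × ℝ) × ℂ => aff p.1.1 p.1.2 p.2) ''
    ((Set.Icc (r0 / 2) (2 * r0) ×ˢ Set.Icc (b0 - 1) (b0 + 1)) ×ˢ tsupport φ) := ⟨_, rfl⟩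
  have hK : IsCompact K := by
    rw [hKd]
    exact ((isCompact_Icc.prod isCompact_Icc).prod hK0).image aff_cont
  have hKH : K ⊆ HH := by
    rw [hKd]
    rintro z ⟨⟨⟨x, y⟩, w⟩, ⟨⟨hx, -⟩, hw⟩, rfl⟩
    have x0 : 0 < x := lt_of_lt_of_le (by positivity) hx.1
    exact TwoPointFunctions.aff_mem x0 y (hφ.2.2 hw)
  have sup : ∀ x y : ℝ, x ∈ Set.Icc (r0 / 2) (2 * r0) → y ∈ Set.Icc (b0 - 1) (b0 + 1) →
      ∀ z, z ∉ K → φ (aff x⁻¹ (-(x⁻¹ * y)) z) = 0 := by
    intro x y hx hy z hz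
    have x0 : 0 < x := lt_of_lt_of_le (by positivity) hx.1
    by_contra hne
    apply hz
    rw [hKd]
    refine ⟨((x, y), aff x⁻¹ (-(x⁻¹ * y)) z), ⟨⟨hx, hy⟩, subset_tsupport _ hne⟩, ?_⟩
    exact TwoPointFunctions.aff_inv' x0 y z
  have m1 : r0 ∈ Set.Icc (r0 / 2) (2 * r0) := ⟨by linarith, by linarith⟩
  have m2 : b0 ∈ Set.Icc (b0 - 1) (b0 + 1) := ⟨by linarith, by linarith⟩
  have ev1 : ∀ᶠ n in atTop, r n ∈ Set.Icc (r0 / 2) (2 * r0) :=
    lr.eventually (Icc_mem_nhds (by linarith) (by linarith))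
  have ev2 : ∀ᶠ n in atTop, b n ∈ Set.Icc (b0 - 1) (b0 + 1) :=
    lb.eventually (Icc_mem_nhds (by linarith) (by linarith))
  -- Lipschitz bound
  obtain ⟨L, hL⟩ := ContDiff.lipschitzWith_of_hasCompactSupport hφ.2.1 hφ.1 (by simp)
  obtain ⟨M, hM⟩ := hK.exists_bound_of_continuousOn (f := fun z : ℂ => z) continuousOn_id
  obtain ⟨C, hC⟩ := prod_bd ht hf h k hK hKH
  obtain ⟨C', hC'⟩ := hK.exists_bound_of_continuousOn (f := fun z : ℂ => (z.im ^ 2)⁻¹) (by
    refine ContinuousOn.inv₀ ((Complex.continuous_im.pow 2).continuousOn) fun z hz => ?_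
    have : 0 < z.im := hKH hz
    positivity)
  obtain ⟨ε, hε⟩ : ∃ ε : ℕ → ℝ, ∀ n, ε n = L * (|r' n - r0⁻¹| * |M| + |b' n - -(r0⁻¹ * b0)|) :=
    ⟨_, fun _ => rfl⟩
  have εl : Tendsto ε atTop (𝓝 0) := by
    have k1 := ((lr'.sub_const r0⁻¹).abs.mul_const |M|).add ((lb'.sub_const (-(r0⁻¹ * b0))).abs)
    have k2 := k1.const_mul (L : ℝ)
    simp only [sub_self, abs_zero, zero_mul, add_zero, mul_zero] at k2
    exact k2.congr fun n => (hε n).symm
  have dif : Tendsto (fun n => (∫ z, ((φ (aff (r' n) (b' n) z) / z.im ^ 2 : ℝ) : ℂ) * F n z) -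
      ∫ z, ((ψ z / z.im ^ 2 : ℝ) : ℂ) * F n z) atTop (𝓝 0) := by
    have lim2 : Tendsto (fun n => ε n * |C'| * |C|) atTop (𝓝 0) := by
      have := (εl.mul_const |C'|).mul_const |C|
      simpa using this
    refine squeeze_zero_norm' ?_ lim2
    filter_upwards [ev1, ev2, hC] with n n1 n2 n3
    have smF : ContinuousOn (F n) HH := by
      have D := Pool.Agent.Results.MP_a28cf0_nt.TripleCorrelations.data ht ht hf hf h
        (Pool.Agent.Results.MP_a28cf0_nt.TripleCorrelations.que_bd hf h)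
      have c := ((D.sy.bd 0).co n).mul ((D.sy.bd (k : ℤ)).co n)
      refine c.congr fun z _ => ?_
      rw [hF]
      have := Pool.Agent.Y265.HY.FW_eq (fun n => ev (t n)) f (Int.ofNat k) n z
      show (f n z : ℂ) * _ = (f n z : ℂ) * _
      congr 1
      exact this.symm
    have tψn : TF HH (fun z => φ (aff (r' n) (b' n) z)) := by
      have := TwoPointFunctions.TF_aff hφ (inv_pos.2 (hr n)) (-((r n)⁻¹ * b n))
      rw [hr', hb']
      exact this
    have i1 : Integrable (fun z => ((φ (aff (r' n) (b' n) z) / z.im ^ 2 : ℝ) : ℂ) * F n z) :=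
      Pool.Agent.TH294.RS.TF.cint
        (Pool.Agent.Results.MP_a28cf0_nt.TripleCorrelations.tf tψn) smF
    have i2 : Integrable (fun z => ((ψ z / z.im ^ 2 : ℝ) : ℂ) * F n z) :=
      Pool.Agent.TH294.RS.TF.cint
        (Pool.Agent.Results.MP_a28cf0_nt.TripleCorrelations.tf tψ) smF
    rw [← integral_sub i1 i2]
    have z1 : ∀ z, z ∉ K → ((φ (aff (r' n) (b' n) z) / z.im ^ 2 : ℝ) : ℂ) * F n z -
        ((ψ z / z.im ^ 2 : ℝ) : ℂ) * F n z = 0 := by
      intro z hz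
      rw [hψ, hr', hb', sup _ _ n1 n2 z hz, sup _ _ m1 m2 z hz]; simp
    rw [← setIntegral_eq_integral_of_forall_compl_eq_zero z1]
    have ip : IntegrableOn (fun z => ‖F n z‖) K :=
      ContinuousOn.integrableOn_compact hK ((smF.mono hKH).norm)
    have ε0 : 0 ≤ ε n := by rw [hε]; positivity
    have bb : ‖∫ z in K, (((φ (aff (r' n) (b' n) z) / z.im ^ 2 : ℝ) : ℂ) * F n z -
        ((ψ z / z.im ^ 2 : ℝ) : ℂ) * F n z)‖ ≤ ∫ z in K, (ε n * |C'|) * ‖F n z‖ := by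
      refine norm_integral_le_of_norm_le (ip.const_mul _) ?_
      refine (ae_restrict_iff' hK.measurableSet).2 (Eventually.of_forall fun z hz => ?_)
      rw [← sub_mul, ← ofReal_sub, norm_mul, Complex.norm_real, ← sub_div, div_eq_mul_inv,
        norm_mul]
      refine mul_le_mul_of_nonneg_right (mul_le_mul ?_ ((hC' z hz).trans (le_abs_self _))
        (norm_nonneg _) ε0) (norm_nonneg _)
      rw [hψ, hε, ← dist_eq_norm]
      refine (hL.dist_le_mul _ _).trans (mul_le_mul_of_nonneg_left ?_ L.2)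
      rw [dist_eq_norm]
      have e : aff (r' n) (b' n) z - aff r0⁻¹ (-(r0⁻¹ * b0)) z =
          ((r' n - r0⁻¹ : ℝ) : ℂ) * z + ((b' n - -(r0⁻¹ * b0) : ℝ) : ℂ) := by
        unfold aff
        simp only [real_smul]
        push_cast
        ring
      rw [e]
      refine (norm_add_le _ _).trans (add_le_add ?_ ?_)
      · rw [norm_mul, Complex.norm_real, Real.norm_eq_abs]
        exact mul_le_mul_of_nonneg_left ((hM z hz).trans (le_abs_self _)) (abs_nonneg _)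
      · rw [Complex.norm_real, Real.norm_eq_abs]
    refine bb.trans ?_
    rw [integral_const_mul]
    refine mul_le_mul_of_nonneg_left ?_ (by positivity)
    simp only [hF]
    exact n3.trans (le_abs_self _)
  have k5 := dif.add h1
  rw [zero_add] at k5
  refine k5.congr fun n => ?_
  rw [e1]
  simp only [hF]
  ring

/-- **Result.** Let `f n` be real eigenfunctions of the hyperbolic Laplacian on the upper half
plane, quantum uniquely ergodic, with `t n → ∞`. Let `z ↦ r n z + b n` and `z ↦ s n z + c n` be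
isometries, which may depend on `n`, with `1/R ≤ r n, s n ≤ R` and `|b n|, |c n| ≤ R`. Then
`∫ ψ(z) f(z) f(r z + b) f(s z + c) dμ → 0` for every test function `ψ`: the three points may be at
macroscopic distance, at the distance `1/t` of the random wave model, at any scale between, or
coincide. -/
theorem result (t : ℕ → ℝ) (ht : Tendsto t atTop atTop) (f : ℕ → ℂ → ℝ)
    (hf : ∀ n, Eig (t n) (f n)) (hq : QUE t f) (R : ℝ) (hR : 0 < R) (r b s c : ℕ → ℝ)
    (hr : ∀ n, 1 / R ≤ r n ∧ r n ≤ R ∧ |b n| ≤ R) (hs : ∀ n, 1 / R ≤ s n ∧ s n ≤ R ∧ |c n| ≤ R)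
    (ψ : ℂ → ℝ) (hψ : TF HH ψ) :
    Tendsto (fun n => ∫ z, ψ z * (f n z * f n (aff (r n) (b n) z) * f n (aff (s n) (c n) z)) /
      z.im ^ 2) atTop (𝓝 0) := by
  by_contra hcon
  rw [Filter.not_tendsto_iff_exists_frequently_notMem] at hcon
  obtain ⟨U, hU, hfr⟩ := hcon
  obtain ⟨ns, hns', hnsf⟩ := extraction_of_frequently_atTop hfr
  have hns := hns'.tendsto_atTop
  have R0 : 0 < 1 / R := by positivity
  have hcp : IsCompact ((Set.Icc (1 / R) R ×ˢ Set.Icc (-R) R) ×ˢ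
    (Set.Icc (1 / R) R ×ˢ Set.Icc (-R) R)) :=
    (isCompact_Icc.prod isCompact_Icc).prod (isCompact_Icc.prod isCompact_Icc)
  obtain ⟨⟨⟨r0, b0⟩, ⟨s0, c0⟩⟩, hm, σ, hσ, hl⟩ := hcp.tendsto_subseq
    (x := fun n => ((r (ns n), b (ns n)), (s (ns n), c (ns n)))) (fun n =>
      ⟨⟨⟨(hr _).1, (hr _).2.1⟩, abs_le.1 (hr _).2.2⟩, ⟨⟨(hs _).1, (hs _).2.1⟩,
        abs_le.1 (hs _).2.2⟩⟩)
  have hω : Tendsto (fun n => ns (σ n)) atTop atTop := hns.comp hσ.tendsto_atTop
  have l1 : Tendsto (fun n => r (ns (σ n))) atTop (𝓝 r0) :=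
    (continuous_fst.comp continuous_fst).tendsto _ |>.comp hl
  have l2 : Tendsto (fun n => b (ns (σ n))) atTop (𝓝 b0) :=
    (continuous_snd.comp continuous_fst).tendsto _ |>.comp hl
  have l3 : Tendsto (fun n => s (ns (σ n))) atTop (𝓝 s0) :=
    (continuous_fst.comp continuous_snd).tendsto _ |>.comp hl
  have l4 : Tendsto (fun n => c (ns (σ n))) atTop (𝓝 c0) :=
    (continuous_snd.comp continuous_snd).tendsto _ |>.comp hl
  have r0p : 0 < r0 := lt_of_lt_of_le R0 hm.1.1.1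
  have s0p : 0 < s0 := lt_of_lt_of_le R0 hm.2.1.1
  have rp : ∀ n, 0 < r n := fun n => lt_of_lt_of_le R0 (hr n).1
  have sp : ∀ n, 0 < s n := fun n => lt_of_lt_of_le R0 (hs n).1
  have ht' : Tendsto (fun n => t (ns (σ n))) atTop atTop := ht.comp hω
  have hf' : ∀ n, Eig (t (ns (σ n))) (f (ns (σ n))) := fun n => hf _
  have hq' : QUE (fun n => t (ns (σ n))) (fun n => f (ns (σ n))) := fun φ hφ k =>
    (hq φ hφ k).comp hω
  have q1 := QUE_affn ht' hf' hq' (fun n => rp (ns (σ n))) r0p l1 l2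
  have q2 := QUE_affn ht' hf' hq' (fun n => sp (ns (σ n))) s0p l3 l4
  have g1 : ∀ n, Eig (t (ns (σ n))) (fun z => f (ns (σ n)) (aff (r (ns (σ n))) (b (ns (σ n))) z)) :=
    fun n => TwoPointFunctions.Eig_aff (hf' n) (rp _) _
  have g2 : ∀ n, Eig (t (ns (σ n))) (fun z => f (ns (σ n)) (aff (s (ns (σ n))) (c (ns (σ n))) z)) :=
    fun n => TwoPointFunctions.Eig_aff (hf' n) (sp _) _
  have key := (Pool.Agent.Results.MP_a28cf0_nt.TripleCorrelations.result _ _ _ ht' ht' ht' _ _ _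
    hf' g1 g2 hq' q1).1 q2 ⟨1 / 3, by norm_num, Eventually.of_forall fun n => by
      unfold Pool.Agent.Results.MP_a28cf0_nt.TripleCorrelations.heron
      obtain ⟨x, hx⟩ : ∃ x, x = Pool.Agent.Results.MP_a28cf0_nt.TripleCorrelations.ev
        (t (ns (σ n))) := ⟨_, rfl⟩
      rw [← hx]
      nlinarith⟩ ψ hψ
  obtain ⟨n, hn⟩ := (key.eventually hU).exists
  exact hnsf _ hn

end Pool.Agent.Results.MP_a54f13_nt.ThreePointFunctions
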