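import Pool.Agent.Run7.h176.NC.Tube8

/-!
# MP_a54f13_nt: power saving near all geodesics for the moments of order less than `3`

`HeckeForm f l` (file `Pool/Agent/Run7/h176/NC/Hecke.lean`) says that `f : ℍ → ℂ` is measurable, invariant
under `SL(2, ℤ)` and that, for every prime `p`,
`f (p z) + ∑_{0 ≤ b < p} f ((z + b) / p) = √p * l p * f z` for all `z`, that is, `f` is an eigenfunction of
all Hecke operators `T_p`. Every Hecke-Maass cusp form of the modular surface is one, and by Kim and Sarnak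
it satisfies `‖l p‖ ≤ 2 * p ^ θ` with `θ = 7 / 64`; then the exponents `η` below exist for all `q < 3`.
`𝒟` is the standard fundamental domain, the integrals are with respect to the hyperbolic area.
If `β ^ 2 - 4 α γ = 1`, then `|α |z|² + β Re z + γ| / Im z` is `sinh` of the distance of `z` to the geodesic
`α |z|² + β Re z + γ = 0`.
-/

set_option autoImplicit false

open UpperHalfPlane MeasureTheory
open scoped MatrixGroups ENNReal Modular

namespace Pool.Agent.Results.MP_a54f13_nt.UniformGeodesicBound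

open Pool.Agent.Run7.h176.NC

/-- Let `K` be a compact subset of the upper half plane, `1 ≤ q`, and let
`0 < 4 η < min (1, 3 - q, 2 - (1 / 2 + θ) q)`. There is a constant `C` such that, for all
eigenfunctions `f` of the Hecke operators with eigenvalues `|l p| ≤ C₀ p ^ θ`, all geodesics
`α |z|² + β Re z + γ = 0` and all `δ ≤ 1`, the points of `K` at a distance at most `arsinh δ` from the
geodesic carry at most the part `C δ ^ (η² / 5)` of the integral of `|f| ^ q` over the modular surface. -/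
theorem result (K : Set ℍ) (hK : IsCompact K) (C₀ θ q η : ℝ) (hC₀ : 1 ≤ C₀) (hq : 1 ≤ q)
    (hη : 0 < η) (h1 : 4 * η < 1) (h2 : 4 * η < 3 - q) (h3 : 4 * η < 2 - (1 / 2 + θ) * q) :
    ∃ C : ℝ, 0 < C ∧ ∀ (f : ℍ → ℂ) (l : ℕ → ℂ), HeckeForm f l →
      (∀ p : ℕ, p.Prime → ‖l p‖ ≤ C₀ * (p : ℝ) ^ θ) →
      ∀ α β γ : ℝ, β ^ 2 - 4 * α * γ = 1 → ∀ δ : ℝ, 0 < δ → δ ≤ 1 →
        ∫⁻ z in {z : ℍ | z ∈ K ∧ |α * Complex.normSq (z : ℂ) + β * z.re + γ| ≤ δ * z.im},
            ‖f z‖ₑ ^ q ≤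
          ENNReal.ofReal (C * δ ^ (η ^ 2 / 5)) * ∫⁻ z in 𝒟, ‖f z‖ₑ ^ q := by
  obtain ⟨C, hC, h⟩ := strip_bound hK hC₀ hq hη h1 h2 h3
  refine ⟨C, hC, fun f l H hl α β γ hd δ hδ hδ1 => ?_⟩
  have hset : {z : ℍ | z ∈ K ∧ |α * Complex.normSq (z : ℂ) + β * z.re + γ| ≤ δ * z.im} =
      {z : ℍ | z ∈ K ∧ |Fv α β γ z| ≤ δ} := by
    ext z
    simp only [Set.mem_ofPred_eq]
    unfold Fv
    rw [abs_div, abs_of_pos z.im_pos, div_le_iff₀ z.im_pos]
  rw [hset]
  exact h f l H hl α β γ hd δ hδ hδ1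

end Pool.Agent.Results.MP_a54f13_nt.UniformGeodesicBound
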